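import Pool.Agent.BEH.StmtsD
import Pool.Agent.Helper24_BEL.LIN
import Pool.Agent.Helper20_BEL.ULT
import Pool.Agent.Helper9_BEL.LSM
import Pool.Agent.Helper70_BEL.LON
import Pool.Agent.Helper35_BEL.CH2
import Pool.Agent.Helper23_BEL.NSH
import Pool.Agent.Helper90_BEL.AVO
import Pool.Agent.Helper76_BEL.TRN

/-!
# Squad BEH (MP_be01ff_an), row RED: bounded representatives of the eigenfunctions
-/

namespace Pool.Agent.BEH.H79

open Set Filter Topology MeasureTheory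
open scoped InnerProductSpace ENNReal
open Pool.Agent.BE01 Pool.Agent.BEL Pool.Agent.BEH

noncomputable section

/-- From `L^2` to `L^∞`. -/
theorem linA : LinStmt := Pool.Agent.BEL.H24.lin
  (Pool.Agent.BEL.H20.ult (Pool.Agent.BEL.H9.lsm (Pool.Agent.BEL.H70.lon Pool.Agent.BEL.H35.ch2))
    (Pool.Agent.BEL.H23.nsh (Pool.Agent.BEL.H90.avo Pool.Agent.BEL.H76.trn)))

/-- `b i` is the value at time `1` of the heat semigroup. -/
theorem heat_basis {d : ℕ} {Ω : Set (En d)} (b : HilbertBasis ℕ ℝ (Lp ℝ 2 (mu Ω))) (om : ℕ → ℝ)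
    (i : ℕ) : Heat b om 1 (Real.exp (om i ^ 2) • b i) (b i) := by
  intro k
  rw [inner_smul_right]
  have ho := orthonormal_iff_ite.1 b.orthonormal k i
  rw [ho]
  by_cases h : k = i
  · subst h
    rw [if_pos rfl, one_mul, mul_one, ← Real.exp_add, neg_add_cancel, Real.exp_zero]
  · rw [if_neg h, mul_zero, mul_zero]

theorem red : RedStmt := by
  classical
  intro d Ω ι b e om hd hok N
  obtain ⟨C, hC, hU⟩ := linA d Ω ι b e om hd hok.dom hok.emb hok.spec
  have h1 : ∀ i : ℕ, ∀ᵐ x ∂(mu Ω), |b i x| ≤ C * (1 : ℝ) ^ (-((d : ℝ) / 4)) *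
      ‖Real.exp (om i ^ 2) • b i‖ := fun i =>
    hU 1 _ _ one_pos (heat_basis b om i)
  obtain ⟨K, hK⟩ : ∃ K : ℕ → ℝ, ∀ i, K i = C * (1 : ℝ) ^ (-((d : ℝ) / 4)) *
      ‖Real.exp (om i ^ 2) • b i‖ := ⟨_, fun _ => rfl⟩
  have hK0 : ∀ i, 0 ≤ K i := fun i => by rw [hK]; positivity
  obtain ⟨B, hB⟩ : ∃ B : ℝ, B = 1 + ∑ i ∈ Finset.range N, K i := ⟨_, rfl⟩
  have hB0 : 0 < B := by
    rw [hB]
    have := Finset.sum_nonneg fun i (_ : i ∈ Finset.range N) => hK0 i
    linarith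
  have hKB : ∀ i < N, K i ≤ B := by
    intro i hi
    rw [hB]
    have := Finset.single_le_sum (fun j _ => hK0 j) (Finset.mem_range.2 hi)
    linarith
  have hms : ∀ i : ℕ, Measurable fun x => b i x := fun i =>
    (Lp.stronglyMeasurable (b i)).measurable
  have hΩ : MeasurableSet Ω := hok.dom.1.measurableSet
  have hT : ∀ i : ℕ, MeasurableSet (Ω ∩ {x | |b i x| ≤ B}) := fun i =>
    hΩ.inter (measurableSet_le (hms i).abs measurable_const)
  refine ⟨B, fun i => (Ω ∩ {x | |b i x| ≤ B}).indicator fun x => b i x, hB0, fun i => ⟨?_, ?_⟩,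
    fun i => ?_, fun i x hx => ?_⟩
  · exact (hms i).indicator (hT i)
  · intro x
    by_cases hx : x ∈ Ω ∩ {x | |b (i : ℕ) x| ≤ B}
    · show |(Ω ∩ {x | |b (i : ℕ) x| ≤ B}).indicator (fun x => b (i : ℕ) x) x| ≤ B
      rw [indicator_of_mem hx]
      exact hx.2
    · show |(Ω ∩ {x | |b (i : ℕ) x| ≤ B}).indicator (fun x => b (i : ℕ) x) x| ≤ B
      rw [indicator_of_notMem hx, abs_zero]
      exact hB0.le
  · have h2 : ∀ᵐ x ∂(mu Ω), x ∈ Ω := ae_restrict_mem hΩ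
    filter_upwards [h1 i, h2] with x hx hx2
    rw [← hK] at hx
    exact indicator_of_mem (show x ∈ Ω ∩ {x | |b (i : ℕ) x| ≤ B} from
      ⟨hx2, hx.trans (hKB i i.2)⟩) _
  · exact indicator_of_notMem (fun h => hx h.1) _

end

end Pool.Agent.BEH.H79
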